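import Pool.Agent.Results.MP_0e046d_gt.NormalExtent

/-!
# Extent and linear embeddings of function spaces

If `Y` is normal and `C_p(Y)` embeds by a linear homeomorphism in `C_p(X)`, where `X` is arbitrary,
then the extent of `Y` is at most the extent of `X`.
-/

set_option autoImplicit false

open Cardinal Set Topology Filter
open Pool.Agent.Results.MP_0e046d_gt.NormalExtent

universe u

namespace Pool.Agent.Results.MP_0e046d_gt.LinearEmbeddings

variable {X Y : Type u} [TopologicalSpace X] [TopologicalSpace Y]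

theorem exists_point_of_embedding [T4Space Y] (T : Cp Y →L[ℝ] Cp X) (hT : IsInducing T)
    (K : X → Finset Y) (hK : ∀ x, Ctrl T x (K x)) (d : Y) : ∃ x, d ∈ K x := by
  classical
  by_contra hcon
  push Not at hcon
  have hLc : Continuous fun g : Cp Y => |g.1 d| :=
    continuous_abs.comp ((continuous_apply d).comp continuous_subtype_val)
  have h1 : {g : Cp Y | |g.1 d| < 1} ∈ 𝓝 (0 : Cp Y) :=
    (isOpen_lt hLc continuous_const).mem_nhds (by simp)
  rw [hT.nhds_eq_comap, map_zero, nhds_subtype_eq_comap, Filter.comap_comap, mem_comap] at h1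
  obtain ⟨N, hN, hN2⟩ := h1
  rw [nhds_pi, Filter.mem_pi] at hN
  obtain ⟨I, hI, t, ht, hN3⟩ := hN
  have hfin : (((hI.toFinset.biUnion K : Finset Y)) : Set Y).Finite := Finset.finite_toSet _
  obtain ⟨g, hg0, hg1⟩ := urysohn hfin.isClosed (isClosed_singleton (x := d)) (by
    rw [Set.disjoint_singleton_right]
    intro h
    rw [Finset.mem_coe, Finset.mem_biUnion] at h
    obtain ⟨x, _, hx⟩ := h
    exact hcon x hx)
  have h2 : (2 : ℝ) • g ∈ {g : Cp Y | |g.1 d| < 1} := by
    apply hN2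
    rw [mem_preimage]
    apply hN3
    intro i hi
    have h3 : (T g).1 i = 0 := hK i g (fun y hy => hg0 y (by
      rw [Finset.mem_coe, Finset.mem_biUnion]
      exact ⟨i, hI.mem_toFinset.mpr hi, hy⟩))
    have h4 : (T ((2 : ℝ) • g)).1 i = 0 := by
      rw [map_smul]
      show 2 * (T g).1 i = 0
      rw [h3, mul_zero]
    have h5 : ((Subtype.val ∘ T) ((2 : ℝ) • g)) i = 0 := h4
    rw [h5]
    exact mem_of_mem_nhds (ht i)
  have h3 : |2 * g.1 d| < 1 := h2
  rw [hg1 d rfl] at h3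
  norm_num at h3

theorem card_le_of_embedding [T1Space X] [T4Space Y] (T : Cp Y →L[ℝ] Cp X)
    (hT : IsInducing T) (τ : Cardinal.{u}) (hτ : ℵ₀ ≤ τ)
    (hX : ∀ S : Set X, IsClosed S → DiscreteTopology S → #S ≤ τ) (D : Set Y) (hD : IsClosed D)
    (hdis : DiscreteTopology D) : #D ≤ τ := by
  classical
  by_contra hcon
  rw [not_le] at hcon
  choose K hK hKμ using exists_support T
  choose x hx using exists_point_of_embedding T hT K hK
  have hμ : ∀ d : Y, ∃ μ : ℝ, μ ≠ 0 ∧ ∀ g : Cp Y, (∀ z ∈ K (x d), z ≠ d → g.1 z = 0) →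
      (T g).1 (x d) = μ * g.1 d := fun d => hKμ (x d) d (hx d)
  choose μ hμ0 hμ using hμ
  -- bounded size of the supports
  obtain ⟨m, hm⟩ := large_nat hτ D hcon (fun m d => ((K (x d)).erase d).card ≤ m)
    (fun d _ => ⟨_, le_rfl⟩)
  obtain ⟨h, hh⟩ := separate hτ hD hdis m {d ∈ D | ((K (x d)).erase d).card ≤ m}
    (fun d hd => hd.1) hm (fun d => (K (x d)).erase d)
    (fun d hd => ⟨Finset.notMem_erase d _, hd.2⟩)
  obtain ⟨⟨a, b⟩, hab⟩ := large_ctbl hτ _ hh (ι := ℚ × ℚ) (fun q d => (q.1 : ℝ) < h.1 d ∧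
    h.1 d < q.2 ∧ ∀ y ∈ (K (x d)).erase d, ¬ ((q.1 : ℝ) < h.1 y ∧ h.1 y < q.2)) (by
      intro d hd
      have hcl : IsClosed ((((K (x d)).erase d).image (fun y => h.1 y) : Finset ℝ) : Set ℝ) :=
        (Finset.finite_toSet _).isClosed
      have hmem : h.1 d ∈ ((((K (x d)).erase d).image (fun y => h.1 y) : Finset ℝ) : Set ℝ)ᶜ := by
        intro hc
        rw [Finset.mem_coe, Finset.mem_image] at hc
        obtain ⟨y, hy, hye⟩ := hc
        exact hd.2 y hy hye
      obtain ⟨ε, hε, hball⟩ := Metric.isOpen_iff.mp hcl.isOpen_compl _ hmem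
      obtain ⟨a, ha1, ha2⟩ := exists_rat_btwn (show h.1 d - ε < h.1 d by linarith)
      obtain ⟨b, hb1, hb2⟩ := exists_rat_btwn (show h.1 d < h.1 d + ε by linarith)
      refine ⟨(a, b), ha2, hb1, fun y hy hyab => ?_⟩
      have h1 : h.1 y ∈ Metric.ball (h.1 d) ε := by
        rw [Metric.mem_ball, Real.dist_eq, abs_lt]
        obtain ⟨h2, h3⟩ := hyab
        simp only at h2 h3
        constructor <;> linarith
      apply hball h1
      rw [Finset.mem_coe, Finset.mem_image]
      exact ⟨y, hy, rfl⟩)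
  simp only at hab
  obtain ⟨A, hAdef⟩ : ∃ A : Set Y, A = {d ∈ {d ∈ {d ∈ D | ((K (x d)).erase d).card ≤ m} |
      ∀ y ∈ (K (x d)).erase d, h.1 y ≠ h.1 d} | (a : ℝ) < h.1 d ∧ h.1 d < b ∧
      ∀ y ∈ (K (x d)).erase d, ¬ ((a : ℝ) < h.1 y ∧ h.1 y < b)} := ⟨_, rfl⟩
  rw [← hAdef] at hab
  have hAD : A ⊆ D := by
    rw [hAdef]
    exact fun d hd => hd.1.1.1
  have hA1 : ∀ d ∈ A, (a : ℝ) < h.1 d ∧ h.1 d < b ∧
      ∀ y ∈ (K (x d)).erase d, ¬ ((a : ℝ) < h.1 y ∧ h.1 y < b) := by
    rw [hAdef]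
    exact fun d hd => hd.2
  -- the cut-off function
  obtain ⟨v, hv⟩ : ∃ v : Y → ℝ, v = fun y => max 0 ((h.1 y - a) * (b - h.1 y)) := ⟨_, rfl⟩
  have hvc : Continuous v := by
    have h1 := mem_Cp.mp h.2
    rw [hv]
    exact continuous_const.max ((h1.sub continuous_const).mul (continuous_const.sub h1))
  have hvpos : ∀ d ∈ A, 0 < v d := by
    intro d hd
    obtain ⟨h1, h2, _⟩ := hA1 d hd
    rw [hv]
    exact lt_max_of_lt_right (mul_pos (by linarith) (by linarith))
  have hv0 : ∀ d ∈ A, ∀ y ∈ K (x d), y ≠ d → v y = 0 := by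
    intro d hd y hy hyd
    obtain ⟨h1, h2, h3⟩ := hA1 d hd
    have h4 := h3 y (Finset.mem_erase.mpr ⟨hyd, hy⟩)
    rw [hv]
    show max 0 ((h.1 y - a) * (b - h.1 y)) = 0
    apply max_eq_left
    by_cases h5 : (a : ℝ) < h.1 y
    · have h6 : ¬ h.1 y < b := fun h6 => h4 ⟨h5, h6⟩
      exact mul_nonpos_of_nonneg_of_nonpos (by linarith) (by linarith)
    · exact mul_nonpos_of_nonpos_of_nonneg (by linarith) (by linarith)
  obtain ⟨w₁, hw₁⟩ := extend hD hdis (fun d => (μ d * v d)⁻¹)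
  have hS : ∀ z : X, ∃ U : Set X, IsOpen U ∧ z ∈ U ∧ (U ∩ x '' A).Finite := by
    intro z
    obtain ⟨w₂, hw0, hw1⟩ := urysohn (K z).finite_toSet.isClosed
      (closed_subset hD hdis (sdiff_subset : D \ (K z : Set Y) ⊆ D)) disjoint_sdiff_right
    obtain ⟨g, hg⟩ : ∃ g : Cp Y, ∀ y, g.1 y = v y * w₁.1 y * w₂.1 y :=
      ⟨⟨fun y => v y * w₁.1 y * w₂.1 y,
        mem_Cp.mpr ((hvc.mul (mem_Cp.mp w₁.2)).mul (mem_Cp.mp w₂.2))⟩, fun y => rfl⟩
    have hgz : (T g).1 z = 0 := by
      apply hK z g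
      intro y hy
      rw [hg, hw0 y hy, mul_zero]
    have hgd : ∀ d ∈ A, d ∉ K z → (T g).1 (x d) = 1 := by
      intro d hd hdz
      rw [hμ d g (fun y hy hyd => by rw [hg, hv0 d hd y hy hyd]; ring), hg, hw₁ d (hAD hd),
        hw1 d ⟨hAD hd, hdz⟩]
      have h1 := hμ0 d
      have h2 := (hvpos d hd).ne'
      field_simp
    refine ⟨{x' | (T g).1 x' < 1/2}, isOpen_lt (mem_Cp.mp (T g).2) continuous_const,
      ?_, ?_⟩
    · show (T g).1 z < 1/2
      rw [hgz]; norm_num
    · refine ((K z).finite_toSet.image x).subset ?_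
      rintro _ ⟨hU, d, hd, rfl⟩
      refine ⟨d, ?_, rfl⟩
      by_contra hdz
      have h1 : (T g).1 (x d) < 1/2 := hU
      rw [hgd d hd hdz] at h1
      norm_num at h1
  obtain ⟨hS1, hS2⟩ := closed_discrete_of (x '' A) hS
  have hcard := hX _ hS1 hS2
  have hAs : #A ≤ τ := by
    have h1 : A ⊆ ⋃ s ∈ x '' A, (K s : Set Y) := by
      intro d hd
      simp only [mem_iUnion]
      exact ⟨x d, mem_image_of_mem x hd, hx d⟩
    refine (mk_le_mk_of_subset h1).trans (small_biUnion hτ _ hcard _ ?_)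
    intro s _
    exact ((K s).finite_toSet.lt_aleph0.le).trans hτ
  exact absurd hAs (not_le.mpr hab)

/-- **Extent and linear embeddings.** Let `X` be a `T₁`-space and `Y` a normal (`T₄`) space. If
there is a continuous linear map `T : C_p(Y) → C_p(X)` which is a homeomorphism onto its image (the
topology of `C_p(Y)` is induced by `T`), then `ext(Y) ≤ ext(X)`. -/
theorem extent_le_of_embedding [T1Space X] [T4Space Y] (T : Cp Y →L[ℝ] Cp X)
    (hT : IsInducing T) : extent Y ≤ extent X := by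
  have h1 : (⨆ D : {D : Set Y // IsClosed D ∧ DiscreteTopology D}, #D.1) ≤ extent X :=
    ciSup_le' fun D => card_le_of_embedding T hT (extent X) (aleph0_le_extent X)
      (fun S hS hS' => card_le_extent S hS hS') D.1 D.2.1 D.2.2
  calc extent Y ≤ extent X + extent X := add_le_add (aleph0_le_extent X) h1
    _ = extent X := add_eq_self (aleph0_le_extent X)

/-- `C_p(Y)` embeds linearly in `C_p(X)`: there is a continuous linear map `C_p(Y) → C_p(X)` which
is a homeomorphism onto its image. -/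
def LinearlyEmbeds (Y X : Type u) [TopologicalSpace Y] [TopologicalSpace X] : Prop :=
  ∃ T : Cp Y →L[ℝ] Cp X, IsEmbedding T

/-- (1) If `Y` is normal and `C_p(Y)` embeds in `C_p(X)` by a linear homeomorphism onto a subspace,
`X` being any `T₁`-space, then `ext(Y) ≤ ext(X)`. (2) If `X` and `Y` are `l`-equivalent and only
`Y` is assumed to be normal, then `ext(Y) ≤ ext(X)`. (3) If `X` and `Y` are normal and
`l`-equivalent, then `ext(X) = ext(Y)` (Question 1, and hence Question 2). -/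
theorem result (X Y : Type u) [TopologicalSpace X] [TopologicalSpace Y] [T1Space X] [T4Space Y] :
    (LinearlyEmbeds Y X → extent Y ≤ extent X) ∧
    (LEquivalent X Y → extent Y ≤ extent X) ∧
    (T4Space X → LEquivalent X Y → extent X = extent Y) :=
  ⟨fun ⟨T, hT⟩ => extent_le_of_embedding T hT.isInducing, fun ⟨φ⟩ => extent_le φ,
    fun _ h => NormalExtent.result X Y h⟩

end Pool.Agent.Results.MP_0e046d_gt.LinearEmbeddings
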